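import Pool.Agent.MP_4948b4_mp.Mg.Eight

/-!
Every relative equilibrium of `n ≥ 8` equal masses in the planar Newtonian `n`-body problem has an
eigenvalue with positive real part on the reduced space.
-/

namespace Pool.Agent.Results.MP_4948b4_mp.EqualMasses

open Pool.Agent.MP_4948b4_mp

theorem result (n : ℕ) (hn : 8 ≤ n) (μ : ℝ) (hμ : 0 < μ) (ω : ℝ) (q : Fin n → ℂ)
    (hq : Function.Injective q) (h : rotField (fun _ => μ) ω (q, 0) = 0) :
    ∃ (α β : ℝ) (u w : (Fin n → ℂ) × (Fin n → ℂ)), 0 < α ∧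
      fderiv ℝ (rotField (fun _ => μ) ω) (q, 0) u = α • u - β • w ∧
      fderiv ℝ (rotField (fun _ => μ) ω) (q, 0) w = β • u + α • w ∧
      Tangent (fun _ => μ) ω q u ∧ Tangent (fun _ => μ) ω q w ∧
      ¬ (u ∈ Submodule.span ℝ {((fun i => Complex.I * q i), 0)} ∧
        w ∈ Submodule.span ℝ {((fun i => Complex.I * q i), 0)}) :=
  unstable_of (by omega) (geo_eight hn) hμ hq h

end Pool.Agent.Results.MP_4948b4_mp.EqualMasses
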