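import Pool.Agent.MP_4948b4_mp.N4.Main

/-!
Four bodies, arbitrary positive masses: a relative equilibrium of the planar Newtonian four-body
problem in which every mass is at most ten times the sum of the other three has an eigenvalue with
positive real part on the reduced space.
-/

namespace Pool.Agent.Results.MP_4948b4_mp.FourBodies

open Pool.Agent.MP_4948b4_mp

theorem result (n : ℕ) (hn : n = 4) (m : Fin n → ℝ) (hm : ∀ i, 0 < m i) (ω : ℝ) (q : Fin n → ℂ)
    (hq : Function.Injective q) (h : rotField m ω (q, 0) = 0)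
    (hd : ∀ i, m i ≤ 10 * (∑ j, m j - m i)) :
    ∃ (α β : ℝ) (u w : (Fin n → ℂ) × (Fin n → ℂ)), 0 < α ∧
      fderiv ℝ (rotField m ω) (q, 0) u = α • u - β • w ∧
      fderiv ℝ (rotField m ω) (q, 0) w = β • u + α • w ∧
      Tangent m ω q u ∧ Tangent m ω q w ∧
      ¬ (u ∈ Submodule.span ℝ {((fun i => Complex.I * q i), 0)} ∧
        w ∈ Submodule.span ℝ {((fun i => Complex.I * q i), 0)}) := by
  subst hn
  exact N4.top N4.no_cfg m hm ω q hq h hd

end Pool.Agent.Results.MP_4948b4_mp.FourBodies
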