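import Pool.Agent.MP_4948b4_mp.Mg.LogMain

/-!
For arbitrary positive masses: a relative equilibrium of the planar Newtonian `n`-body problem in
which every mass is at most `M / (10 ^ 19 (log n) ^ 4)` (`M` the total mass) has an eigenvalue with
positive real part on the reduced space.
-/

namespace Pool.Agent.Results.MP_4948b4_mp.LogDominance

open Pool.Agent.MP_4948b4_mp

theorem result (n : ℕ) (hn : 3 ≤ n) (m : Fin n → ℝ) (hm : ∀ i, 0 < m i) (ω : ℝ) (q : Fin n → ℂ)
    (hq : Function.Injective q) (h : rotField m ω (q, 0) = 0)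
    (hd : ∀ i, 10 ^ 19 * Real.log n ^ 4 * m i ≤ ∑ j, m j) :
    ∃ (α β : ℝ) (u w : (Fin n → ℂ) × (Fin n → ℂ)), 0 < α ∧
      fderiv ℝ (rotField m ω) (q, 0) u = α • u - β • w ∧
      fderiv ℝ (rotField m ω) (q, 0) w = β • u + α • w ∧
      Tangent m ω q u ∧ Tangent m ω q w ∧
      ¬ (u ∈ Submodule.span ℝ {((fun i => Complex.I * q i), 0)} ∧
        w ∈ Submodule.span ℝ {((fun i => Complex.I * q i), 0)}) :=
  log_dominance hn hm hq h hd

end Pool.Agent.Results.MP_4948b4_mp.LogDominance
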