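import Pool.Agent.MP_4948b4_mp.H95.Defs
import Pool.Agent.MP_4948b4_mp.H95.Main

/-!
A linearly stable relative equilibrium of the planar Newtonian nine-body problem that is not a
local minimum of the potential among configurations with the same centre of mass and the same
moment of inertia.
-/

namespace Pool.Agent.Results.MP_4948b4_mp.StableSaddle

open Pool.Agent.MP_4948b4_mp

theorem result : ∃ (m : Fin 9 → ℝ) (q : Fin 9 → ℂ), (∀ i, 0 < m i) ∧ Function.Injective q ∧
    10 * (∑ j, m j - m 0) ≤ m 0 ∧ ∑ i, (m i : ℂ) * q i = 0 ∧ rotField m 1 (q, 0) = 0 ∧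
    H95.Stable m q 15 ∧ H95.NotMin m q := by
  obtain ⟨m, q, h1, h2, h3, h4, h5, h6, h7, h8⟩ := H95.stable_saddle
  exact ⟨m, q, h1, h2, h3, h4, h5, ⟨h6, h7⟩, h8⟩

end Pool.Agent.Results.MP_4948b4_mp.StableSaddle
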